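import Pool.Agent.L7h70.SB.Stm
import Pool.Agent.Y708.QR.Br

/-!
# Project SB (helper70), part WEQ: Parseval's formula and the weak equation
-/

set_option autoImplicit false

open Set Filter Topology MeasureTheory
open scoped Real ContDiff

noncomputable section

namespace Pool.Agent.L7h95.SB

open Pool.Agent.Y262.QE Pool.Agent.Y264.QR Pool.Agent.Y986.QE Pool.Agent.L7h70.SB

section
variable {M : Type} [MeasurableSpace M]

/-- Parseval's formula for two functions. -/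
theorem parseval2 {ν : Measure M} {u : ℕ → M → ℝ} (hu : ∀ j, MemLp (u j) 2 ν)
    (horth : ∀ i j, ∫ x, u i x * u j x ∂ν = if i = j then 1 else 0)
    (htot : ∀ f : M → ℝ, MemLp f 2 ν → (∀ j, ∫ x, f x * u j x ∂ν = 0) → f =ᵐ[ν] 0)
    {f g : M → ℝ} (hf : MemLp f 2 ν) (hg : MemLp g 2 ν) :
    HasSum (fun j => (∫ x, f x * u j x ∂ν) * ∫ x, g x * u j x ∂ν) (∫ x, f x * g x ∂ν) := by
  have hi : ∀ {p q : M → ℝ}, MemLp p 2 ν → MemLp q 2 ν → Integrable (fun x => p x * q x) ν :=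
    fun hp hq => hp.integrable_mul hq
  have h1 := Pool.Agent.Y708.QR.parseval hu horth htot (hf.add hg)
  have h2 := Pool.Agent.Y708.QR.parseval hu horth htot hf
  have h3 := Pool.Agent.Y708.QR.parseval hu horth htot hg
  have h4 := ((h1.sub h2).sub h3).mul_left (1 / 2 : ℝ)
  have e1 : ∀ j, ∫ x, (f + g) x * u j x ∂ν = (∫ x, f x * u j x ∂ν) + ∫ x, g x * u j x ∂ν := by
    intro j
    rw [← integral_add (hi hf (hu j)) (hi hg (hu j))]
    exact integral_congr_ae (Eventually.of_forall fun x => add_mul _ _ _)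
  have e2 : ∫ x, ((f + g) x) ^ 2 ∂ν =
      (∫ x, (f x) ^ 2 ∂ν) + (2 * ∫ x, f x * g x ∂ν) + ∫ x, (g x) ^ 2 ∂ν := by
    have i1 : Integrable (fun x => (f x) ^ 2) ν := hf.integrable_sq
    have i2 : Integrable (fun x => (g x) ^ 2) ν := hg.integrable_sq
    have i3 : Integrable (fun x => 2 * (f x * g x)) ν := (hi hf hg).const_mul 2
    have j1 : ∫ x, (f x) ^ 2 + 2 * (f x * g x) ∂ν =
        (∫ x, (f x) ^ 2 ∂ν) + ∫ x, 2 * (f x * g x) ∂ν := integral_add i1 i3
    have j2 : ∫ x, ((f x) ^ 2 + 2 * (f x * g x)) + (g x) ^ 2 ∂ν =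
        (∫ x, (f x) ^ 2 + 2 * (f x * g x) ∂ν) + ∫ x, (g x) ^ 2 ∂ν := integral_add (i1.add i3) i2
    rw [← integral_const_mul, ← j1, ← j2]
    refine integral_congr_ae (Eventually.of_forall fun x => ?_)
    show (f x + g x) ^ 2 = f x ^ 2 + 2 * (f x * g x) + g x ^ 2
    ring
  simp only [e1, e2] at h4
  have h5 : (fun j => (∫ x, f x * u j x ∂ν) * ∫ x, g x * u j x ∂ν) = fun j => 1 / 2 *
      (((∫ x, f x * u j x ∂ν) + ∫ x, g x * u j x ∂ν) ^ 2 - (∫ x, f x * u j x ∂ν) ^ 2 -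
        (∫ x, g x * u j x ∂ν) ^ 2) := by
    funext j
    ring
  have h6 : ∫ x, f x * g x ∂ν = 1 / 2 * ((∫ x, (f x) ^ 2 ∂ν) + (2 * ∫ x, f x * g x ∂ν) +
      (∫ x, (g x) ^ 2 ∂ν) - (∫ x, (f x) ^ 2 ∂ν) - ∫ x, (g x) ^ 2 ∂ν) := by
    ring
  rw [h5, h6]
  exact h4

/-- the inequality of Cauchy and Schwarz -/
theorem cs {ν : Measure M} {f g : M → ℝ} (hf : MemLp f 2 ν) (hg : MemLp g 2 ν) :
    |∫ x, f x * g x ∂ν| ≤ Real.sqrt (∫ x, (f x) ^ 2 ∂ν) * Real.sqrt (∫ x, (g x) ^ 2 ∂ν) := by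
  have hin : inner ℝ (hf.toLp f) (hg.toLp g) = ∫ x, f x * g x ∂ν := by
    rw [L2.inner_def]
    refine integral_congr_ae ?_
    filter_upwards [hf.coeFn_toLp, hg.coeFn_toLp] with x h1 h2
    rw [h1, h2]
    simp [mul_comm]
  have hn : ∀ {p : M → ℝ} (hp : MemLp p 2 ν), ‖hp.toLp p‖ = Real.sqrt (∫ x, (p x) ^ 2 ∂ν) := by
    intro p hp
    have h1 : ‖hp.toLp p‖ ^ 2 = ∫ x, (p x) ^ 2 ∂ν := by
      rw [← real_inner_self_eq_norm_sq, L2.inner_def]
      refine integral_congr_ae ?_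
      filter_upwards [hp.coeFn_toLp] with x h1
      rw [h1, real_inner_self_eq_norm_sq, Real.norm_eq_abs, sq_abs]
    rw [← h1, Real.sqrt_sq (norm_nonneg _)]
  rw [← hin, ← hn hf, ← hn hg]
  exact abs_real_inner_le_norm _ _

end

/-- Parseval's formula and the weak equation -/
theorem s_WEQ : S_WEQ := by
  intro M _ _ _ _ μ D hD φ u lam hE
  set om : M → ℝ := fun x => Real.exp (φ x) with homdef
  have hom : Continuous om := Real.continuous_exp.comp φ.continuous
  have hp : ∀ x, 0 < om x := fun x => Real.exp_pos _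
  obtain ⟨hfin, -⟩ := Pool.Agent.Y274.QE.Fin.fin M μ D hD
  haveI := hfin
  obtain ⟨hS, hcgr⟩ := Pool.Agent.Y492.QE.conf Pool.Agent.Y960.QE.int_chart M μ D hD om hom hp
  obtain ⟨hfin', -⟩ := Pool.Agent.Y274.QE.Fin.fin M (wm μ om) (D.conf om) hS
  haveI := hfin'
  refine ⟨fun v w hv hw => parseval2 (fun j => (hE.eig j).mem) hE.orth hE.total hv hw, ?_⟩
  intro w h hw hh hB hweak j
  obtain ⟨B, hB⟩ := hB
  obtain ⟨hmem, F, hF, hconv, -, heig⟩ := hE.eig j
  have hF' : ∀ k, D.C1 (F k) := hF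
  have hFc : ∀ k, Continuous (F k) := fun k => Pool.Agent.Y708.QE.C1_cont hD (hF' k)
  have e1 := heig w hw
  have e2 : ∀ k, ∫ x, inner ℝ ((D.conf om).gr (F k) x) ((D.conf om).gr w x) ∂(wm μ om) =
      ∫ x, (Real.exp (-φ x) * h x) * F k x ∂(wm μ om) := by
    intro k
    rw [int_wm hom hp, int_wm hom hp]
    have e3 : ∫ x, om x * inner ℝ ((D.conf om).gr (F k) x) ((D.conf om).gr w x) ∂μ =
        ∫ x, inner ℝ (D.gr w x) (D.gr (F k) x) ∂μ := by
      refine integral_congr_ae (Eventually.of_forall fun x => ?_)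
      show om x * inner ℝ ((D.conf om).gr (F k) x) ((D.conf om).gr w x) =
        inner ℝ (D.gr w x) (D.gr (F k) x)
      rw [hcgr, hcgr, real_inner_smul_left, real_inner_smul_right, real_inner_comm (D.gr w x)]
      have h3 : Real.sqrt (om x) * Real.sqrt (om x) = om x := Real.mul_self_sqrt (hp x).le
      have h4 : Real.sqrt (om x) ≠ 0 := (Real.sqrt_pos.2 (hp x)).ne'
      calc om x * ((Real.sqrt (om x))⁻¹ * ((Real.sqrt (om x))⁻¹ *
            inner ℝ (D.gr w x) (D.gr (F k) x)))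
          = (Real.sqrt (om x) * Real.sqrt (om x)) *
            ((Real.sqrt (om x))⁻¹ * ((Real.sqrt (om x))⁻¹ *
              inner ℝ (D.gr w x) (D.gr (F k) x))) := by rw [h3]
        _ = (Real.sqrt (om x) * (Real.sqrt (om x))⁻¹) * (Real.sqrt (om x) * (Real.sqrt (om x))⁻¹) *
            inner ℝ (D.gr w x) (D.gr (F k) x) := by ring
        _ = inner ℝ (D.gr w x) (D.gr (F k) x) := by rw [mul_inv_cancel₀ h4, one_mul, one_mul]
    rw [e3, hweak (F k) (hF' k)]
    refine integral_congr_ae (Eventually.of_forall fun x => ?_)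
    show h x * F k x = Real.exp (φ x) * (Real.exp (-φ x) * h x * F k x)
    rw [← mul_assoc, ← mul_assoc, ← Real.exp_add, add_neg_cancel, Real.exp_zero, one_mul]
  simp only [e2] at e1
  -- the limit of the right-hand side
  have hgm : Measurable fun x => Real.exp (-φ x) * h x :=
    (Real.continuous_exp.comp φ.continuous.neg).measurable.mul hh
  obtain ⟨C, hC0, hC⟩ := bdd_of_cont (Real.continuous_exp.comp φ.continuous.neg)
  have hg : MemLp (fun x => Real.exp (-φ x) * h x) 2 (wm μ om) := by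
    refine MemLp.of_bound hgm.aestronglyMeasurable (C * |B|) (Eventually.of_forall fun x => ?_)
    rw [Real.norm_eq_abs, abs_mul]
    exact mul_le_mul (hC x) ((hB x).trans (le_abs_self _)) (abs_nonneg _) hC0
  have hFm : ∀ k, MemLp (F k) 2 (wm μ om) := by
    intro k
    obtain ⟨c, hc0, hc⟩ := bdd_of_cont (hFc k)
    exact MemLp.of_bound (hFc k).aestronglyMeasurable c (Eventually.of_forall fun x => by
      rw [Real.norm_eq_abs]; exact hc x)
  have e4 : Tendsto (fun k => ∫ x, (Real.exp (-φ x) * h x) * F k x ∂(wm μ om)) atTop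
      (𝓝 (∫ x, (Real.exp (-φ x) * h x) * u j x ∂(wm μ om))) := by
    rw [tendsto_iff_norm_sub_tendsto_zero]
    have h5 : Tendsto (fun k => Real.sqrt (∫ x, (Real.exp (-φ x) * h x) ^ 2 ∂(wm μ om)) *
        Real.sqrt (∫ x, (F k x - u j x) ^ 2 ∂(wm μ om))) atTop (𝓝 0) := by
      have h6 := hconv.sqrt.const_mul (Real.sqrt (∫ x, (Real.exp (-φ x) * h x) ^ 2 ∂(wm μ om)))
      simpa using h6
    refine squeeze_zero (fun k => norm_nonneg _) (fun k => ?_) h5
    have h7 : (∫ x, (Real.exp (-φ x) * h x) * F k x ∂(wm μ om)) -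
        ∫ x, (Real.exp (-φ x) * h x) * u j x ∂(wm μ om) =
        ∫ x, (Real.exp (-φ x) * h x) * (F k x - u j x) ∂(wm μ om) := by
      have h8 : ∫ x, (Real.exp (-φ x) * h x) * F k x - (Real.exp (-φ x) * h x) * u j x ∂(wm μ om) =
          (∫ x, (Real.exp (-φ x) * h x) * F k x ∂(wm μ om)) -
          ∫ x, (Real.exp (-φ x) * h x) * u j x ∂(wm μ om) :=
        integral_sub (hg.integrable_mul (hFm k)) (hg.integrable_mul hmem)
      rw [← h8]
      refine integral_congr_ae (Eventually.of_forall fun x => ?_)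
      show (Real.exp (-φ x) * h x) * F k x - (Real.exp (-φ x) * h x) * u j x =
        (Real.exp (-φ x) * h x) * (F k x - u j x)
      ring
    rw [Real.norm_eq_abs, h7]
    exact cs hg ((hFm k).sub hmem)
  have e5 := tendsto_nhds_unique e1 e4
  rw [← e5]
  congr 1
  exact integral_congr_ae (Eventually.of_forall fun x => mul_comm _ _)

end Pool.Agent.L7h95.SB
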